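import Mathlib
import Pool.Agent.R135.ArborWords

/-!
# MP_edc851_co, Q1: the h*-polynomial of arbor polytopes

For every `n ≥ 1` and every arbor `τ` of size `n`,
`h*(Q_τ, t) = ∑_{w ∈ W_τ} t^{n-1-des(w)}`.

Idea: let `A(q)` be the generating polynomial (by coordinate sum) of the lattice points of `m Q`
and `B(q)` that of families of subsets of an `(m+1)`-set satisfying the reversed inequalities.
Then `B(q) = q^n (1+q)^{mn} A(1/(1+q))`; this relation is preserved by disjoint unions and, by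
Vandermonde's identity, by adding a block and imposing the inequality of a new vertex.
-/

set_option autoImplicit false
open Finset
open scoped Pointwise Classical

namespace Pool.Agent.Results.MP_edc851_co.HStarByWords

/-- An arbor of size `n`: a rooted tree whose vertices carry the blocks of a set partition of
`{0, …, n-1}` into nonempty blocks.  The tree is given by its parent function; the root is its
own parent and is reached from every vertex. -/
structure Arbor (n : ℕ) where
  /-- the vertices -/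
  V : Type
  /-- finitely many vertices -/
  fin : Fintype V
  /-- the block of a vertex -/
  block : V → Finset (Fin n)
  block_nonempty : ∀ v, (block v).Nonempty
  block_disjoint : ∀ u v, u ≠ v → Disjoint (block u) (block v)
  block_cover : ∀ i, ∃ v, i ∈ block v
  /-- the root -/
  root : V
  /-- the parent function -/
  parent : V → V
  parent_root : parent root = root
  reach_root : ∀ v, ∃ k : ℕ, parent^[k] v = root

variable {n : ℕ}

/-- `𝒟(v)`: the union of `v` and all its descendants. -/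
noncomputable def Arbor.desc (τ : Arbor n) (v : τ.V) : Finset (Fin n) :=
  univ.filter (fun i => ∃ u : τ.V, i ∈ τ.block u ∧ ∃ k : ℕ, τ.parent^[k] u = v)

/-- The arbor polytope `Q_τ`. -/
def Arbor.polytope (τ : Arbor n) : Set (Fin n → ℝ) :=
  {x | (∀ i, 0 ≤ x i) ∧ ∀ v : τ.V, ∑ i ∈ τ.desc v, x i ≤ (τ.desc v).card}

/-- The words `w ∈ [n]^n` with at least `|𝒟(v)|` letters in `𝒟(v)` for every vertex `v`. -/
noncomputable def Arbor.words (τ : Arbor n) : Finset (Fin n → Fin n) :=
  univ.filter (fun w => ∀ v : τ.V,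
    (τ.desc v).card ≤ (univ.filter (fun j : Fin n => w j ∈ τ.desc v)).card)

/-- The number of descents: positions `i` with `w_i > w_{i+1}`. -/
noncomputable def des (w : Fin n → Fin n) : ℕ :=
  Nat.card {i : ℕ // ∃ h : i + 1 < n, w ⟨i + 1, h⟩ < w ⟨i, Nat.lt_of_succ_lt h⟩}

/-- The Ehrhart series `∑_{m ≥ 0} #(mP ∩ ℤ^n) t^m`. -/
noncomputable def ehrhartSeries (P : Set (Fin n → ℝ)) : PowerSeries ℤ :=
  PowerSeries.mk fun m =>
    (Set.ncard {z : Fin n → ℤ | (fun i => (z i : ℝ)) ∈ (m : ℝ) • P} : ℤ)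

/-- `h` is the `h*`-polynomial of the `n`-dimensional polytope `P ⊆ ℝ^n`. -/
def IsHStar (P : Set (Fin n → ℝ)) (h : Polynomial ℤ) : Prop :=
  ehrhartSeries P * (1 - (PowerSeries.X : PowerSeries ℤ)) ^ (n + 1) = (h : PowerSeries ℤ)

open Pool.Agent.R135.Arbor (Laminar setA mem_setA words_gf)

lemma mem_desc (τ : Arbor n) (v : τ.V) (i : Fin n) :
    i ∈ τ.desc v ↔ ∃ u : τ.V, i ∈ τ.block u ∧ ∃ k : ℕ, τ.parent^[k] u = v := by
  unfold Arbor.desc
  rw [Finset.mem_filter]
  exact ⟨fun h => h.2, fun h => ⟨Finset.mem_univ _, h⟩⟩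

/-- the family of all `𝒟(v)` -/
noncomputable def famD (τ : Arbor n) : Finset (Finset (Fin n)) :=
  letI := τ.fin
  (univ : Finset τ.V).image τ.desc

lemma mem_famD (τ : Arbor n) (D : Finset (Fin n)) : D ∈ famD τ ↔ ∃ v, τ.desc v = D := by
  unfold famD
  rw [Finset.mem_image]
  constructor
  · rintro ⟨v, _, h⟩; exact ⟨v, h⟩
  · rintro ⟨v, h⟩; exact ⟨v, @Finset.mem_univ _ τ.fin v, h⟩

lemma desc_root (τ : Arbor n) : τ.desc τ.root = univ := by
  ext i
  rw [mem_desc]
  constructor
  · intro _; exact Finset.mem_univ _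
  · intro _
    obtain ⟨u, hu⟩ := τ.block_cover i
    exact ⟨u, hu, τ.reach_root u⟩

lemma desc_mono (τ : Arbor n) (u v : τ.V) (k : ℕ) (h : τ.parent^[k] u = v) :
    τ.desc u ⊆ τ.desc v := by
  intro i hi
  rw [mem_desc] at hi ⊢
  obtain ⟨x, hx, l, hl⟩ := hi
  refine ⟨x, hx, k + l, ?_⟩
  rw [Function.iterate_add_apply, hl, h]

lemma laminar (τ : Arbor n) : Laminar (famD τ) := by
  intro D hD E hE
  obtain ⟨u, rfl⟩ := (mem_famD τ D).mp hD
  obtain ⟨v, rfl⟩ := (mem_famD τ E).mp hE
  by_cases hdis : Disjoint (τ.desc u) (τ.desc v)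
  · exact Or.inr (Or.inr hdis)
  · rw [Finset.not_disjoint_iff] at hdis
    obtain ⟨i, hiu, hiv⟩ := hdis
    rw [mem_desc] at hiu hiv
    obtain ⟨x, hx, k, hk⟩ := hiu
    obtain ⟨y, hy, l, hl⟩ := hiv
    have hxy : x = y := by
      by_contra hne
      exact Finset.disjoint_left.mp (τ.block_disjoint x y hne) hx hy
    subst hxy
    rcases le_total k l with hkl | hkl
    · left
      apply desc_mono τ u v (l - k)
      rw [← hk, ← Function.iterate_add_apply, Nat.sub_add_cancel hkl, hl]
    · right; left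
      apply desc_mono τ v u (k - l)
      rw [← hl, ← Function.iterate_add_apply, Nat.sub_add_cancel hkl, hk]

lemma mem_smul_polytope (τ : Arbor n) (m : ℕ) (x : Fin n → ℝ) :
    x ∈ (m : ℝ) • τ.polytope ↔
      (∀ i, 0 ≤ x i) ∧ ∀ v : τ.V, ∑ i ∈ τ.desc v, x i ≤ m * (τ.desc v).card := by
  rcases Nat.eq_zero_or_pos m with hm | hm
  · subst hm
    have hne : (τ.polytope).Nonempty := ⟨0, fun i => le_refl _, fun v => by simp⟩
    rw [Nat.cast_zero, Set.zero_smul_set hne, Set.mem_zero]
    constructor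
    · rintro rfl
      exact ⟨fun i => le_refl _, fun v => by simp⟩
    · rintro ⟨h1, h2⟩
      have h3 := h2 τ.root
      rw [desc_root, zero_mul] at h3
      have h4 : ∑ i, x i = 0 := le_antisymm h3 (Finset.sum_nonneg (fun i _ => h1 i))
      funext i
      exact (Finset.sum_eq_zero_iff_of_nonneg (fun i _ => h1 i)).mp h4 i (Finset.mem_univ _)
  · have hm' : (0 : ℝ) < m := by exact_mod_cast hm
    rw [Set.mem_smul_set_iff_inv_smul_mem₀ (ne_of_gt hm')]
    unfold Arbor.polytope
    rw [Set.mem_ofPred_eq]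
    apply and_congr
    · apply forall_congr'
      intro i
      show 0 ≤ (m : ℝ)⁻¹ * x i ↔ 0 ≤ x i
      exact mul_nonneg_iff_of_pos_left (inv_pos.mpr hm')
    · apply forall_congr'
      intro v
      have h1 : ∑ i ∈ τ.desc v, ((m : ℝ)⁻¹ • x) i = (m : ℝ)⁻¹ * ∑ i ∈ τ.desc v, x i := by
        rw [Finset.mul_sum]
        rfl
      rw [h1, inv_mul_le_iff₀ hm']

lemma count_eq (τ : Arbor n) (m : ℕ) :
    Set.ncard {z : Fin n → ℤ | (fun i => (z i : ℝ)) ∈ (m : ℝ) • τ.polytope}
      = (setA m (m * n) (famD τ)).card := by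
  rw [← Nat.card_coe_set_eq, ← Fintype.card_coe, ← Nat.card_eq_fintype_card]
  have key : ∀ z : Fin n → ℤ, (fun i => (z i : ℝ)) ∈ (m : ℝ) • τ.polytope ↔
      (∀ i, 0 ≤ z i) ∧ ∀ v : τ.V, ∑ i ∈ τ.desc v, z i ≤ m * (τ.desc v).card := by
    intro z
    rw [mem_smul_polytope]
    apply and_congr
    · apply forall_congr'
      intro i
      exact Int.cast_nonneg_iff
    · apply forall_congr'
      intro v
      rw [← Int.cast_sum]
      constructor
      · intro h; exact_mod_cast h
      · intro h; exact_mod_cast h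
  apply Nat.card_congr
  refine
    { toFun := fun z => ⟨fun i => ⟨(z.1 i).toNat, ?_⟩, ?_⟩
      invFun := fun x => ⟨fun i => ((x.1 i : ℕ) : ℤ), ?_⟩
      left_inv := ?_
      right_inv := ?_ }
  · have hz := (key z.1).mp z.2
    have h1 := hz.2 τ.root
    rw [desc_root] at h1
    have h2 : z.1 i ≤ ∑ j, z.1 j :=
      Finset.single_le_sum (f := z.1) (fun j _ => hz.1 j) (Finset.mem_univ i)
    have h3 : ((univ : Finset (Fin n)).card : ℤ) = n := by simp
    rw [h3] at h1
    have h4 : z.1 i ≤ m * n := le_trans h2 h1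
    have h5 := hz.1 i
    have h6 : ((z.1 i).toNat : ℤ) = z.1 i := Int.toNat_of_nonneg h5
    have h7 : ((z.1 i).toNat : ℤ) < ((m * n + 1 : ℕ) : ℤ) := by
      rw [h6]; push_cast; linarith
    exact_mod_cast h7
  · have hz := (key z.1).mp z.2
    rw [mem_setA]
    intro D hD
    obtain ⟨v, rfl⟩ := (mem_famD τ D).mp hD
    have h1 := hz.2 v
    have h2 : ∑ i ∈ τ.desc v, z.1 i = ((∑ i ∈ τ.desc v, (z.1 i).toNat : ℕ) : ℤ) := by
      push_cast
      apply Finset.sum_congr rfl
      intro i _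
      exact (Int.toNat_of_nonneg (hz.1 i)).symm
    rw [h2] at h1
    exact_mod_cast h1
  · show (fun i => ((((x.1 i : ℕ) : ℤ)) : ℝ)) ∈ (m : ℝ) • τ.polytope
    rw [key]
    refine ⟨fun i => Int.natCast_nonneg _, fun v => ?_⟩
    have hx := (mem_setA m (m * n) (famD τ) x.1).mp x.2 (τ.desc v) ((mem_famD τ _).mpr ⟨v, rfl⟩)
    exact_mod_cast hx
  · intro z
    have hz := (key z.1).mp z.2
    apply Subtype.ext
    funext i
    exact Int.toNat_of_nonneg (hz.1 i)
  · intro x
    apply Subtype.ext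
    funext i
    apply Fin.ext
    exact Int.toNat_natCast _

lemma des_eq {k : ℕ} (w : Fin (k + 1) → Fin (k + 1)) :
    des w = Pool.Agent.R135.Arbor.des w := by
  unfold des Pool.Agent.R135.Arbor.des
  rw [← Fintype.card_subtype, ← Nat.card_eq_fintype_card]
  apply Nat.card_congr
  exact
    { toFun := fun i => ⟨⟨i.1, by obtain ⟨h, _⟩ := i.2; omega⟩, by
        obtain ⟨h, h'⟩ := i.2
        exact h'⟩
      invFun := fun i => ⟨i.1.1, by
        have := i.1.2
        exact ⟨by omega, i.2⟩⟩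
      left_inv := fun i => rfl
      right_inv := fun i => rfl }

/-- **Q1 of MP_edc851_co is true**: for every `n ≥ 1` and every arbor `τ` of size `n`, the
`h*`-polynomial of the arbor polytope is `∑_{w ∈ W_τ} t^{n-1-des(w)}`. -/
theorem result (n : ℕ) (hn : 1 ≤ n) (τ : Arbor n) :
    IsHStar τ.polytope (∑ w ∈ τ.words, Polynomial.X ^ (n - 1 - des w)) := by
  obtain ⟨k, rfl⟩ : ∃ k, n = k + 1 := ⟨n - 1, by omega⟩
  have huniv : (univ : Finset (Fin (k + 1))) ∈ famD τ :=
    (mem_famD τ _).mpr ⟨τ.root, desc_root τ⟩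
  have h1 := words_gf (famD τ) (laminar τ) huniv
    (fun m => Set.ncard {z : Fin (k + 1) → ℤ | (fun i => (z i : ℝ)) ∈ (m : ℝ) • τ.polytope})
    (fun m => count_eq τ m)
  unfold IsHStar ehrhartSeries
  rw [h1]
  congr 1
  have hwords : Pool.Agent.R135.Arbor.words (famD τ) = τ.words := by
    unfold Pool.Agent.R135.Arbor.words Arbor.words
    ext w
    rw [Finset.mem_filter, Finset.mem_filter]
    apply and_congr Iff.rfl
    constructor
    · intro h v
      exact h _ ((mem_famD τ _).mpr ⟨v, rfl⟩)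
    · intro h D hD
      obtain ⟨v, rfl⟩ := (mem_famD τ D).mp hD
      exact h v
  rw [hwords]
  apply Finset.sum_congr rfl
  intro w _
  rw [des_eq]
  rfl

end Pool.Agent.Results.MP_edc851_co.HStarByWords
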